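import Pool.Agent.Lib.MP_9aac7e_co_h49.Main

/-!
# MP_9aac7e_co: the IMV chromatic number of `S(K_n)`, for `ρ(n) ≤ 3` and in the upper two thirds
of every level of `ρ`
-/

set_option autoImplicit false

namespace Pool.Agent.Results.MP_9aac7e_co.TwoThirds

open Pool.Agent.IMV

/-- (1) `χ(S(K_n)) = ρ(n) + 1` for every `n ≥ 1` with `ρ(n) ≤ 3`.
(2) For every `k` let `b` be the largest number with `ρ(b) ≤ k` (so `b = R(4^k) - 1` for `k ≥ 1`);
then `χ(S(K_n)) = ρ(n) + 1` for all `n` with `b / 3 < n ≤ b`.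
(3) Every IMV colouring of `S(K_n)` with `ρ(n)` colours (so every counterexample) has at least
three colours on the `n` vertices of `K_n`. -/
theorem result :
    (∀ n : ℕ, 1 ≤ n → rho n ≤ 3 →
      chiIMV (subdiv (⊤ : SimpleGraph (Fin n))) = rho n + 1) ∧
    (∀ k : ℕ, ∃ b : ℕ, 1 ≤ b ∧ (∀ n, 1 ≤ n → (rho n ≤ k ↔ n ≤ b)) ∧
      ∀ n, b < 3 * n → n ≤ b →
        chiIMV (subdiv (⊤ : SimpleGraph (Fin n))) = rho n + 1) ∧
    (∀ n : ℕ, 1 ≤ n → ∀ c : Fin n ⊕ (⊤ : SimpleGraph (Fin n)).edgeSet → Fin (rho n),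
      (∀ i, IsIMV (subdiv (⊤ : SimpleGraph (Fin n))) {v | c v = i}) →
        3 ≤ (Set.range fun v : Fin n => c (Sum.inl v)).ncard) :=
  main

end Pool.Agent.Results.MP_9aac7e_co.TwoThirds
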